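import Pool.Agent.Helper54.UN.St

/-!
# Project UN, part C, module SG4
-/

set_option autoImplicit false

noncomputable section

namespace Pool.Agent.Helper31.UNC

open Set Filter Topology Pool.Agent.Helper71.UN Pool.Agent.Helper54.UN

private lemma nums (c a1 a2 b1 b2 t1 t2 p q w v : ℝ) (hc1 : 173 / 200 < c) (hc2 : c < 1733 / 2000)
    (ha1 : |a1 - 1 / 2| ≤ 1 / 50) (ha2 : |a2 - c| ≤ 1 / 50) (hb1 : |b1 - 1 / 2| ≤ 1 / 50)
    (hb2 : |b2 - c| ≤ 1 / 50) (hp : b1 - a1 = p) (hq : b2 - a2 = q) (hq0 : 0 < q)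
    (hpq : |p| ≤ 3 / 5 * q) (hq1 : q ≤ 1 / 50) (hw0 : 0 < w) (hw1 : w < 1 / 2) (hv0 : 0 < v)
    (hv1 : v < 1) (ht1 : t1 = -1 / 2 + w * ((a1 + 1 / 2) + v * p))
    (ht2 : t2 = c + w * ((a2 - c) + v * q)) :
    (23 / 50 ≤ b1 - t1 ∧ |b2 - t2| ≤ 1 / 20) ∧
    |(a1 - 1) * b2 - a2 * (1 + b1)| ≤ 3 ∧ |(a1 - t1) * b2 - (a2 - t2) * (1 + b1)| ≤ 3 := by
  rw [abs_le] at ha1 ha2 hb1 hb2 hpq
  have hvp : |v * p| ≤ 3 / 250 := by
    rw [abs_mul, abs_of_pos hv0]
    have : |p| ≤ 3 / 250 := by rw [abs_le]; constructor <;> linarith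
    calc v * |p| ≤ 1 * (3 / 250) := mul_le_mul hv1.le this (abs_nonneg _) (by norm_num)
      _ = 3 / 250 := one_mul _
  have hvq : 0 < v * q ∧ v * q ≤ 1 / 50 := by
    refine ⟨mul_pos hv0 hq0, ?_⟩
    have : v * q ≤ 1 * (1 / 50) := mul_le_mul hv1.le hq1 hq0.le (by norm_num)
    linarith
  rw [abs_le] at hvp
  have hA : 0 < (a1 + 1 / 2) + v * p := by linarith
  have hwA : 0 < w * ((a1 + 1 / 2) + v * p) ∧ w * ((a1 + 1 / 2) + v * p) ≤ 129 / 250 := by
    refine ⟨mul_pos hw0 hA, ?_⟩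
    have : w * ((a1 + 1 / 2) + v * p) ≤ 1 / 2 * (129 / 125) :=
      mul_le_mul hw1.le (by linarith) hA.le (by norm_num)
    linarith
  have hwB : |w * ((a2 - c) + v * q)| ≤ 1 / 50 := by
    rw [abs_mul, abs_of_pos hw0]
    have : |(a2 - c) + v * q| ≤ 1 / 25 := by rw [abs_le]; constructor <;> linarith [hvq.1, hvq.2]
    calc w * |(a2 - c) + v * q| ≤ 1 / 2 * (1 / 25) := mul_le_mul hw1.le this (abs_nonneg _) (by norm_num)
      _ = 1 / 50 := by norm_num
  rw [abs_le] at hwB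
  refine ⟨⟨?_, ?_⟩, ?_, ?_⟩
  · rw [ht1]; linarith [hwA.2]
  · rw [ht2, abs_le]; constructor <;> linarith [hwB.1, hwB.2]
  · have h3 : 0 ≤ b2 ∧ b2 ≤ 9 / 10 := by constructor <;> linarith
    have h4 : 0 ≤ 1 + b1 ∧ 1 + b1 ≤ 8 / 5 := by constructor <;> linarith
    have h5 : 0 ≤ a2 ∧ a2 ≤ 9 / 10 := by constructor <;> linarith
    have k1 : 0 ≤ (1 - a1) * b2 := mul_nonneg (by linarith) h3.1
    have k2 : (1 - a1) * b2 ≤ 13 / 25 * (9 / 10) := mul_le_mul (by linarith) h3.2 h3.1 (by norm_num)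
    have k3 : 0 ≤ a2 * (1 + b1) := mul_nonneg h5.1 h4.1
    have k4 : a2 * (1 + b1) ≤ 9 / 10 * (8 / 5) := mul_le_mul h5.2 h4.2 h4.1 (by norm_num)
    rw [abs_le]; constructor <;> linarith
  · have h1 : 0 ≤ a1 - t1 ∧ a1 - t1 ≤ 21 / 20 := by rw [ht1]; constructor <;> linarith [hwA.1, hwA.2]
    have h2 : |a2 - t2| ≤ 1 / 20 := by rw [ht2, abs_le]; constructor <;> linarith [hwB.1, hwB.2]
    rw [abs_le] at h2 ⊢
    have h3 : 0 ≤ b2 ∧ b2 ≤ 9 / 10 := by constructor <;> linarith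
    have h4 : 0 ≤ 1 + b1 ∧ 1 + b1 ≤ 8 / 5 := by constructor <;> linarith
    have k1 : 0 ≤ (a1 - t1) * b2 := mul_nonneg h1.1 h3.1
    have k2 : (a1 - t1) * b2 ≤ 21 / 20 * (9 / 10) := mul_le_mul h1.2 h3.2 h3.1 (by norm_num)
    have k5 : |(a2 - t2) * (1 + b1)| ≤ 1 / 20 * (8 / 5) := by
      rw [abs_mul, abs_of_nonneg h4.1]
      exact mul_le_mul (abs_le.2 h2) h4.2 h4.1 (by norm_num)
    obtain ⟨k4, k3⟩ := abs_le.1 k5
    constructor <;> linarith

theorem hSG4 (h1 : StSG1) (h2 : StSG2) (h3 : StSG3) : StSG4 := by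
  intro η a b τ w v hη hc
  obtain ⟨q0, q1, q2⟩ := h1 η a b τ w v hη hc
  have G1 := h2 η a b τ w v hη hc
  have G2 := h3 η a b τ w v hη hc
  have hX := G2.f5b
  have hY := G2.g0b
  obtain ⟨σ, hσ0, hσ1⟩ := exists_rat_btwn
    (show (0 : ℝ) < min (1 / 10) (min (- lf 1 a b / 3) (lf τ a b / 3)) from
      lt_min (by norm_num) (lt_min (by linarith) (by linarith)))
  have hs1 : (σ : ℝ) ≤ 1 / 10 := (hσ1.trans_le (min_le_left _ _)).le
  have hs2 : 3 * (σ : ℝ) < - lf 1 a b := by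
    have := (hσ1.trans_le (min_le_right _ _)).trans_le (min_le_left _ _)
    linarith
  have hs3 : 3 * (σ : ℝ) < lf τ a b := by
    have := (hσ1.trans_le (min_le_right _ _)).trans_le (min_le_right _ _)
    linarith
  refine ⟨σ, by exact_mod_cast hσ0, ?_, ?_⟩
  · have : (σ : ℝ) < 1 := by linarith
    exact_mod_cast this
  set s : ℝ := (σ : ℝ) with hs
  have hcast : ((σ : ℚ) : ℂ) = ((s : ℝ) : ℂ) := by rw [hs]; push_cast; rfl
  rw [hcast]
  set g : ℂ := b - (s : ℂ) * (1 + b) with hg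
  have gre : g.re = b.re - s * (1 + b.re) := by simp [hg]
  have gim : g.im = b.im - s * b.im := by simp [hg]
  have hτ := hc.hτ
  set c : ℝ := Real.sqrt 3 / 2 with hcdef
  have hc1 : 173 / 200 < c := by rw [hcdef]; linarith [s3_gt]
  have hc2 : c < 1733 / 2000 := by rw [hcdef]; linarith [s3_lt]
  have hsq : Real.sqrt 3 = 2 * c := by rw [hcdef]; ring
  have τre : τ.re = -1 / 2 + w * ((a.re + 1 / 2) + v * (b.re - a.re)) := by
    rw [hτ]
    simp only [Complex.add_im, Complex.mul_im, Complex.sub_im, Complex.ofReal_re, Complex.ofReal_im,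
      Complex.sub_re, Complex.add_re, Complex.mul_re, om_im, om_re]
    ring
  have τim : τ.im = c + w * ((a.im - c) + v * (b.im - a.im)) := by
    rw [hτ, hcdef]
    simp only [Complex.add_im, Complex.mul_im, Complex.sub_im, Complex.ofReal_re, Complex.ofReal_im,
      Complex.sub_re, Complex.add_re, Complex.mul_re, om_im, om_re]
    ring
  have hna2 : |a.im - c| ≤ 1 / 50 := G1.na2
  have hnb2 : |b.im - c| ≤ 1 / 50 := G1.nb2
  rw [Complex.sub_re] at q1
  rw [Complex.sub_im] at q0 q1 q2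
  obtain ⟨⟨n1, n2⟩, n3, n4⟩ := nums c a.re a.im b.re b.im τ.re τ.im (b.re - a.re) (b.im - a.im) w v
    hc1 hc2 G1.na1 hna2 G1.nb1 hnb2 rfl rfl q0 q1 q2 hc.s0 hc.s1 hc.θ0 hc.θ1 τre τim
  have m1 := G1.na1
  have m3 := G1.nb1
  rw [abs_le] at m1 m3 hna2 hnb2 n2 n3 n4 q1
  have omre : om.re = -1 / 2 := rfl
  have omim : om.im = c := rfl
  -- elementary bounds
  have B1 : 0 < s * (1 + b.re) ∧ s * (1 + b.re) ≤ 19 / 125 := by
    constructor
    · exact mul_pos hσ0 (by linarith)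
    · have : s * (1 + b.re) ≤ 1 / 10 * (38 / 25) := mul_le_mul hs1 (by linarith) (by linarith) (by norm_num)
      linarith
  have B2 : 0 < s * b.im ∧ s * b.im ≤ 9 / 100 := by
    constructor
    · exact mul_pos hσ0 (by linarith)
    · have : s * b.im ≤ 1 / 10 * (9 / 10) := mul_le_mul hs1 (by linarith) (by linarith) (by norm_num)
      linarith
  have F5 : lf 1 a g = lf 1 a b - s * ((a.re - 1) * b.im - a.im * (1 + b.re)) := by
    simp only [lf_eq, gre, gim, Complex.one_re, Complex.one_im]; ring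
  have F6 : lf om (-1) g = -(1 / 2) * (g.im - c) + c * (g.re + 1 / 2) := by
    simp only [lf_eq, omre, omim, Complex.neg_re, Complex.neg_im, Complex.one_re, Complex.one_im]; ring
  have F7 : lf (-om) 1 g = (1 / 2) * (g.im + c) - c * (g.re - 1 / 2) := by
    simp only [lf_eq, omre, omim, Complex.neg_re, Complex.neg_im, Complex.one_re, Complex.one_im]; ring
  have F4 : lf 1 b g = 2 * (s * b.im) := by
    simp only [lf_eq, gre, gim, Complex.one_re, Complex.one_im]; ring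
  have F2 : lf b om g = s * (c * (1 + b.re) - b.im / 2) := by
    simp only [lf_eq, gre, gim, omre, omim]; ring
  have Fd : lf a b g = s * ((1 + b.re) * (b.im - a.im) - b.im * (b.re - a.re)) := by
    simp only [lf_eq, gre, gim]; ring
  have F0 : lf τ a g = lf τ a b - s * ((a.re - τ.re) * b.im - (a.im - τ.im) * (1 + b.re)) := by
    simp only [lf_eq, gre, gim]; ring
  have F3 : lf τ b g = - (s * ((b.re - τ.re) * b.im - (b.im - τ.im) * (1 + b.re))) := by
    simp only [lf_eq, gre, gim]; ring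
  have cre : 0 < c := by linarith
  have bim1 : 21 / 25 ≤ b.im := by linarith
  have bim2 : b.im ≤ 9 / 10 := by linarith
  refine
    { na1 := G1.na1, na2 := G1.na2, nb1 := G1.nb1, nb2 := G1.nb2,
      d0 := G1.d0, d1 := G1.d1, d2 := G1.d2, d3 := G1.d3, d4 := G1.d4, d5 := G1.d5, d6 := G1.d6,
      t01 := G1.t01, t12 := G1.t12, t23 := G1.t23, t02 := G1.t02, t03 := G1.t03, t13 := G1.t13,
      t45 := G1.t45, t04 := G1.t04, t05 := G1.t05, t14 := G1.t14, t15 := G1.t15, t24 := G1.t24,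
      t25 := G1.t25, t34 := G1.t34, t35 := G1.t35, t46 := G1.t46, t56 := G1.t56, t60 := G1.t60,
      t61 := G1.t61, t62 := G1.t62, t63 := G1.t63, e0 := G1.e0, e1 := G1.e1, e2 := G1.e2,
      e3 := G1.e3, e4 := G1.e4, e5 := G1.e5,
      f5o := G2.f5o, f5t := G2.f5t, f5b := G2.f5b, f5g := ?_, f5n := G2.f5n, f5m := G2.f5m,
      f1v := G2.f1v, f1b := G2.f1b, f1t := G2.f1t, f1n := G2.f1n, f1m := G2.f1m,
      f6v := G2.f6v, f6a := G2.f6a, f6b := G2.f6b, f6t := G2.f6t, f6g := ?_, f6m := G2.f6m,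
      f7o := G2.f7o, f7a := G2.f7a, f7b := G2.f7b, f7t := G2.f7t, f7g := ?_, f7n := G2.f7n,
      f4a := G2.f4a, f4o := G2.f4o, f4t := G2.f4t, f4g := ?_, f4n := G2.f4n, f4m := G2.f4m,
      f2a := G2.f2a, f2v := G2.f2v, f2t := G2.f2t, f2g := ?_, f2n := G2.f2n, f2m := G2.f2m,
      gdv := G2.gdv, gdo := G2.gdo, gdt := G2.gdt, gdg := ?_,
      g0b := G2.g0b, g0o := G2.g0o, g0v := G2.g0v, g0g := ?_,
      g3a := G2.g3a, g3o := G2.g3o, g3v := G2.g3v, g3g := ?_,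
      ev := G2.ev, eo := G2.eo, ea := G2.ea, eb := G2.eb, et := G2.et, eg := ?_,
      ia := G2.ia, ib := G2.ib, it := G2.it, ig := ?_, oa := G2.oa, ob := G2.ob, ot := G2.ot,
      og := ?_ }
  · rw [F5]
    have := mul_nonneg hσ0.le (show 0 ≤ (a.re - 1) * b.im - a.im * (1 + b.re) + 3 by linarith [n3.1])
    linarith
  · rw [F6, gre, gim]
    have k1 : c * (41 / 50) ≤ c * (b.re - s * (1 + b.re) + 1 / 2) :=
      mul_le_mul_of_nonneg_left (by linarith [B1.2]) cre.le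
    linarith [B2.1]
  · rw [F7, gre, gim]
    have k1 : c * (b.re - s * (1 + b.re) - 1 / 2) ≤ c * (1 / 50) :=
      mul_le_mul_of_nonneg_left (by linarith [B1.1]) cre.le
    linarith [B2.2]
  · rw [F4]
    linarith [B2.1]
  · rw [F2]
    apply mul_pos hσ0
    have k1 : c * (37 / 25) ≤ c * (1 + b.re) := mul_le_mul_of_nonneg_left (by linarith) cre.le
    linarith
  · rw [Fd]
    apply mul_pos hσ0
    have k1 : 37 / 25 * (b.im - a.im) ≤ (1 + b.re) * (b.im - a.im) :=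
      mul_le_mul_of_nonneg_right (by linarith) q0.le
    have k2 : b.im * (b.re - a.re) ≤ b.im * (3 / 5 * (b.im - a.im)) :=
      mul_le_mul_of_nonneg_left q1.2 (by linarith)
    have k3 : b.im * (3 / 5 * (b.im - a.im)) ≤ 9 / 10 * (3 / 5 * (b.im - a.im)) :=
      mul_le_mul_of_nonneg_right bim2 (by linarith)
    linarith
  · rw [F0]
    have := mul_nonneg hσ0.le
      (show 0 ≤ 3 - ((a.re - τ.re) * b.im - (a.im - τ.im) * (1 + b.re)) by linarith [n4.2])
    linarith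
  · rw [F3, neg_lt_zero]
    apply mul_pos hσ0
    have k1 : 23 / 50 * (21 / 25) ≤ (b.re - τ.re) * b.im := mul_le_mul n1 bim1 (by norm_num) (by linarith)
    have k2 : (b.im - τ.im) * (1 + b.re) ≤ 1 / 20 * (38 / 25) := by
      have e1 : (b.im - τ.im) * (1 + b.re) ≤ 1 / 20 * (1 + b.re) :=
        mul_le_mul_of_nonneg_right n2.2 (by linarith)
      linarith
    linarith
  · unfold el
    rw [gre, gim, hsq]
    have k1 : 0 < 2 * c * (b.im - s * b.im) := mul_pos (by linarith) (by linarith [B2.2])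
    linarith [B1.2]
  · rw [gim]
    linarith [B2.2]
  · rw [dt_eq, gre, gim, omre, omim]
    have k1 : 0 < c * (b.re - s * (1 + b.re)) := mul_pos cre (by linarith [B1.2])
    linarith [B2.2]

end Pool.Agent.Helper31.UNC
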