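import Pool.Agent.Helper54.UN.St

/-!
# Project UN, part C, module VEO
-/

set_option autoImplicit false

noncomputable section

namespace Pool.Agent.Helper31.UNC

open Set Filter Topology Pool.Agent.Helper71.UN Pool.Agent.Helper54.UN

private lemma mono {p q z : ℂ} (hp : 0 < p.re) (hq : 0 < q.re) (hpq : 0 < dt p q) (hz : 0 < z.re)
    (h : dt p z ≤ 0) : dt q z < 0 := by
  have h1 := plu p q z
  by_contra hc
  push Not at hc
  nlinarith [mul_pos hpq hz, mul_nonneg hc hp.le, mul_nonneg (neg_nonneg.2 h) hq.le]

private lemma tend_sub (b : ℂ) : Tendsto (fun z : ℂ => b - z) (𝓝 0) (𝓝 b) := by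
  have h : Continuous (fun z : ℂ => b - z) := by fun_prop
  have := h.tendsto 0
  simpa using this

theorem hVEO (hU : StU) : StVEO := by
  intro k l a b τ g hG
  have E1 := (tend_sub b).eventually (evp continuous_el hG.eb)
  have E2 := (tend_sub b).eventually (evn (continuous_lf 1 a) hG.f5b)
  have E3 := (tend_sub b).eventually (evp (continuous_lf om (-1)) hG.f6b)
  have E4 := (tend_sub b).eventually (evp (continuous_lf (-om) 1) hG.f7b)
  have E5 := (tend_sub b).eventually (evp (continuous_lf τ a) hG.g0b)
  filter_upwards [E1, E2, E3, E4, E5] with z z1 z2 z3 z4 z5 o2 o3 o4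
  have hx : lamN k l a b τ (-b + z) = lamU k l a b τ (b - z) := by
    have : -b + z = -(b - z) := by ring
    rw [this, lam_even, hU k l a b τ g hG (b - z) z1]
  have w4 : lf 1 b (b - z) = - dt (b - 1) z := by simp only [lf, dt_eq, Complex.sub_re, Complex.sub_im]; ring
  have w2 : lf b om (b - z) = dt (b - om) z := by simp only [lf, dt_eq, Complex.sub_re, Complex.sub_im]; ring
  have wd : lf a b (b - z) = - dt (b - a) z := by simp only [lf, dt_eq, Complex.sub_re, Complex.sub_im]; ring
  have w3 : lf τ b (b - z) = - dt (b - τ) z := by simp only [lf, dt_eq, Complex.sub_re, Complex.sub_im]; ring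
  have key : lamU k l a b τ (b - z) = if 0 < dt (b - 1) z ∨ dt (b - om) z < 0 then 1
      else if 0 < dt (b - a) z ∨ 0 < dt (b - τ) z then k else l := by
    unfold lamU
    rw [w4, w2, wd, w3]
    have c1 : ¬ (0 < lf 1 a (b - z) ∧ 0 < lf a om (b - z) ∧ 0 < lf om (-1) (b - z) ∧
      0 < lf (-om) 1 (b - z)) := fun h => absurd h.1 (not_lt.2 z2.le)
    rw [if_neg c1]
    have c2 : (-dt (b - 1) z < 0 ∨ dt (b - om) z < 0 ∨ lf om (-1) (b - z) < 0 ∨
      lf (-om) 1 (b - z) < 0) ↔ (0 < dt (b - 1) z ∨ dt (b - om) z < 0) := by
      constructor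
      · rintro (h | h | h | h)
        · exact Or.inl (by linarith)
        · exact Or.inr h
        · exact absurd h (not_lt.2 z3.le)
        · exact absurd h (not_lt.2 z4.le)
      · rintro (h | h)
        · exact Or.inl (by linarith)
        · exact Or.inr (Or.inl h)
    have c3 : (-dt (b - a) z < 0 ∨ (0 < lf τ a (b - z) ∧ -dt (b - τ) z < 0)) ↔
        (0 < dt (b - a) z ∨ 0 < dt (b - τ) z) := by
      constructor
      · rintro (h | h)
        · exact Or.inl (by linarith)
        · exact Or.inr (by linarith [h.2])
      · rintro (h | h)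
        · exact Or.inl (by linarith)
        · exact Or.inr ⟨z5, by linarith⟩
    rw [if_congr c2 rfl (if_congr c3 rfl rfl)]
  rw [hx, key]
  unfold stN
  by_cases hz : 0 < z.re
  · rw [if_pos hz]
    by_cases h0 : dt (a - τ) z ≤ 0
    · have h2 := mono hG.d0 hG.d2 hG.t02 hz h0
      rw [if_pos (Or.inr h2), if_pos h0]
      rfl
    · rw [if_neg h0]
      by_cases h1 : dt (a - om) z ≤ 0
      · have h2 := mono hG.d1 hG.d2 hG.t12 hz h1
        rw [if_pos (Or.inr h2), if_pos h1]
        rfl
      · rw [if_neg h1]
        by_cases h2 : dt (b - om) z ≤ 0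
        · have h2' : dt (b - om) z < 0 := by
            rcases lt_or_eq_of_le h2 with h | h
            · exact h
            · exact absurd (ofr_neg hG.d2 o2 h) (not_lt.2 hz.le)
          rw [if_pos (Or.inr h2'), if_pos h2]
          rfl
        · rw [if_neg h2]
          push Not at h2
          have h4 : dt (b - 1) z < 0 := by
            have hp := plu (b - om) (b - 1) z
            by_contra hc
            push Not at hc
            nlinarith [mul_pos hG.t24 hz, mul_nonneg hc hG.d2.le, mul_pos h2 (neg_pos.2 hG.d4)]
          have n1 : ¬ (0 < dt (b - 1) z ∨ dt (b - om) z < 0) := by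
            rintro (h | h) <;> linarith
          rw [if_neg n1]
          by_cases h3 : dt (b - τ) z ≤ 0
          · have h3' : dt (b - τ) z < 0 := by
              rcases lt_or_eq_of_le h3 with h | h
              · exact h
              · exact absurd (ofr_neg hG.d3 o3 h) (not_lt.2 hz.le)
            have he : dt (b - a) z < 0 := by
              have hp := plu3 (b - om) (b - τ) (b - a) z
              by_contra hc
              push Not at hc
              nlinarith [mul_nonneg hG.t23.le hc, mul_pos (neg_pos.2 h3') (neg_pos.2 hG.e2),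
                mul_pos h2 (neg_pos.2 hG.e3)]
            have n2 : ¬ (0 < dt (b - a) z ∨ 0 < dt (b - τ) z) := by
              rintro (h | h) <;> linarith
            rw [if_neg n2, if_pos h3]
            rfl
          · rw [if_neg h3]
            push Not at h3
            rw [if_pos (Or.inr h3)]
            rfl
  · rw [if_neg hz]
    push Not at hz
    by_cases h6 : 0 ≤ dt (-(1 + om)) z
    · have hp := plu (-(1 + om)) (b - om) z
      have h2 : dt (b - om) z < 0 := by
        by_contra hc
        push Not at hc
        rcases lt_or_eq_of_le hc with h | h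
        · nlinarith [mul_nonneg hG.t62.le (neg_nonneg.2 hz), mul_pos h (neg_pos.2 hG.d6),
            mul_nonneg h6 hG.d2.le]
        · have hz' := ofr_neg hG.d2 o2 h.symm
          rw [← h] at hp
          nlinarith [mul_pos hG.t62 (neg_pos.2 hz'), mul_nonneg h6 hG.d2.le]
      rw [if_pos (Or.inr h2), if_pos h6]
      rfl
    · rw [if_neg h6]
      by_cases h5 : 0 ≤ dt (a - 1) z
      · have hp := plu (b - 1) (a - 1) z
        have h4 : 0 < dt (b - 1) z := by
          by_contra hc
          push Not at hc
          rcases lt_or_eq_of_le hc with h | h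
          · nlinarith [mul_nonneg hG.t45.le (neg_nonneg.2 hz), mul_nonneg h5 (neg_pos.2 hG.d4).le,
              mul_pos (neg_pos.2 h) (neg_pos.2 hG.d5)]
          · exact absurd (ofr_pos hG.d4 o4 h) (not_lt.2 hz)
        rw [if_pos (Or.inl h4), if_pos h5]
        rfl
      · rw [if_neg h5]
        by_cases h4 : 0 ≤ dt (b - 1) z
        · have h4' : 0 < dt (b - 1) z := by
            rcases lt_or_eq_of_le h4 with h | h
            · exact h
            · exact absurd (ofr_pos hG.d4 o4 h.symm) (not_lt.2 hz)
          rw [if_pos (Or.inl h4'), if_pos h4]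
          rfl
        · rw [if_neg h4]
          push Not at h4
          have hp2 := plu (b - om) (b - 1) z
          have hp3 := plu (b - τ) (b - 1) z
          have h2 : 0 < dt (b - om) z := by
            by_contra hc
            push Not at hc
            nlinarith [mul_nonneg hG.t24.le (neg_nonneg.2 hz), mul_pos (neg_pos.2 h4) hG.d2,
              mul_nonneg (neg_nonneg.2 hc) (neg_pos.2 hG.d4).le]
          have h3 : 0 < dt (b - τ) z := by
            by_contra hc
            push Not at hc
            nlinarith [mul_nonneg hG.t34.le (neg_nonneg.2 hz), mul_pos (neg_pos.2 h4) hG.d3,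
              mul_nonneg (neg_nonneg.2 hc) (neg_pos.2 hG.d4).le]
          have n1 : ¬ (0 < dt (b - 1) z ∨ dt (b - om) z < 0) := by
            rintro (h | h) <;> linarith
          rw [if_neg n1, if_pos (Or.inr h3)]
          rfl

end Pool.Agent.Helper31.UNC
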