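import Pool.Agent.Helper54.UN.St

/-!
# Project UN, part C, module VET
-/

set_option autoImplicit false

noncomputable section

namespace Pool.Agent.Helper31.UNC

open Set Filter Topology Pool.Agent.Helper71.UN Pool.Agent.Helper54.UN

private lemma mono {p q z : ℂ} (hp : 0 < p.re) (hq : 0 < q.re) (hpq : 0 < dt p q) (hz : 0 < z.re)
    (h : dt p z ≤ 0) : dt q z < 0 := by
  have h1 := plu p q z
  by_contra hc
  push Not at hc
  nlinarith [mul_pos hpq hz, mul_nonneg hc hp.le, mul_nonneg (neg_nonneg.2 h) hq.le]

private lemma tend_sub (b : ℂ) : Tendsto (fun z : ℂ => b - z) (𝓝 0) (𝓝 b) := by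
  have h : Continuous (fun z : ℂ => b - z) := by fun_prop
  have := h.tendsto 0
  simpa using this

private lemma tend_add (b : ℂ) : Tendsto (fun z : ℂ => b + z) (𝓝 0) (𝓝 b) := by
  have h : Continuous (fun z : ℂ => b + z) := by fun_prop
  have := h.tendsto 0
  simpa using this

private lemma st5 (i : Fin 7) : st6 i 5 = 2 := by
  fin_cases i <;> rfl

theorem hVET (hU : StU) : StVET := by
  intro k l a b τ g hG
  constructor
  · have E1 := (tend_add τ).eventually (evp continuous_el hG.et)
    have E2 := (tend_add τ).eventually (evn (continuous_lf a om) hG.f1t)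
    have E3 := (tend_add τ).eventually (evp (continuous_lf om (-1)) hG.f6t)
    have E4 := (tend_add τ).eventually (evp (continuous_lf (-om) 1) hG.f7t)
    have E5 := (tend_add τ).eventually (evp (continuous_lf 1 b) hG.f4t)
    have E6 := (tend_add τ).eventually (evp (continuous_lf b om) hG.f2t)
    have E7 := (tend_add τ).eventually (evp (continuous_lf a b) hG.gdt)
    filter_upwards [E1, E2, E3, E4, E5, E6, E7] with z z1 z2 z3 z4 z5 z6 z7 o0 o3
    have w0 : lf τ a (τ + z) = dt (a - τ) z := by
      simp only [lf, dt_eq, Complex.sub_re, Complex.sub_im, Complex.add_re, Complex.add_im]; ring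
    have w3 : lf τ b (τ + z) = dt (b - τ) z := by
      simp only [lf, dt_eq, Complex.sub_re, Complex.sub_im, Complex.add_re, Complex.add_im]; ring
    have key : lamU k l a b τ (τ + z) = if 0 < dt (a - τ) z ∧ dt (b - τ) z < 0 then k else l := by
      unfold lamU
      rw [w0, w3]
      have c1 : ¬ (0 < lf 1 a (τ + z) ∧ 0 < lf a om (τ + z) ∧ 0 < lf om (-1) (τ + z) ∧
        0 < lf (-om) 1 (τ + z)) := fun h => absurd h.2.1 (not_lt.2 z2.le)
      rw [if_neg c1]
      have c2 : ¬ (lf 1 b (τ + z) < 0 ∨ lf b om (τ + z) < 0 ∨ lf om (-1) (τ + z) < 0 ∨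
        lf (-om) 1 (τ + z) < 0) := by
        rintro (h | h | h | h) <;> linarith
      rw [if_neg c2]
      have c3 : (lf a b (τ + z) < 0 ∨ (0 < dt (a - τ) z ∧ dt (b - τ) z < 0)) ↔
          (0 < dt (a - τ) z ∧ dt (b - τ) z < 0) := by
        constructor
        · rintro (h | h)
          · linarith
          · exact h
        · exact Or.inr
      rw [if_congr c3 rfl rfl]
    rw [hU k l a b τ g hG (τ + z) z1, key]
    unfold stN
    by_cases hz : 0 < z.re
    · rw [if_pos hz]
      by_cases h0 : dt (a - τ) z ≤ 0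
      · rw [if_neg (fun h => absurd h.1 (not_lt.2 h0)), if_pos h0]
        rfl
      · rw [if_neg h0]
        push Not at h0
        by_cases h1 : dt (a - om) z ≤ 0
        · have h3 := mono hG.d1 hG.d3 hG.t13 hz h1
          rw [if_pos ⟨h0, h3⟩, if_pos h1]
          rfl
        · rw [if_neg h1]
          by_cases h2 : dt (b - om) z ≤ 0
          · have h3 := mono hG.d2 hG.d3 hG.t23 hz h2
            rw [if_pos ⟨h0, h3⟩, if_pos h2]
            rfl
          · rw [if_neg h2]
            by_cases h3 : dt (b - τ) z ≤ 0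
            · have h3' : dt (b - τ) z < 0 := by
                rcases lt_or_eq_of_le h3 with h | h
                · exact h
                · exact absurd (ofr_neg hG.d3 o3 h) (not_lt.2 hz.le)
              rw [if_pos ⟨h0, h3'⟩, if_pos h3]
              rfl
            · rw [if_neg h3]
              push Not at h3
              rw [if_neg (fun h => absurd h.2 (not_lt.2 h3.le))]
              rfl
    · rw [if_neg hz]
      push Not at hz
      have hp := plu (a - τ) (b - τ) z
      have hn : ¬ (0 < dt (a - τ) z ∧ dt (b - τ) z < 0) := by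
        rintro ⟨h1, h2⟩
        nlinarith [mul_nonneg hG.t03.le (neg_nonneg.2 hz), mul_pos (neg_pos.2 h2) hG.d0,
          mul_pos h1 hG.d3]
      rw [if_neg hn]
      split_ifs <;> rfl
  · have E1 := (tend_sub g).eventually (evp continuous_el hG.eg)
    have E2 := (tend_sub g).eventually (evn (continuous_lf 1 a) hG.f5g)
    have E3 := (tend_sub g).eventually (evp (continuous_lf om (-1)) hG.f6g)
    have E4 := (tend_sub g).eventually (evp (continuous_lf (-om) 1) hG.f7g)
    have E5 := (tend_sub g).eventually (evp (continuous_lf 1 b) hG.f4g)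
    have E6 := (tend_sub g).eventually (evp (continuous_lf b om) hG.f2g)
    have E7 := (tend_sub g).eventually (evp (continuous_lf τ a) hG.g0g)
    have E8 := (tend_sub g).eventually (evn (continuous_lf τ b) hG.g3g)
    filter_upwards [E1, E2, E3, E4, E5, E6, E7, E8] with z z1 z2 z3 z4 z5 z6 z7 z8
    have hx : lamN k l a b τ (-g + z) = lamU k l a b τ (g - z) := by
      have : -g + z = -(g - z) := by ring
      rw [this, lam_even, hU k l a b τ g hG (g - z) z1]
    rw [hx, st5]
    unfold lamU
    have c1 : ¬ (0 < lf 1 a (g - z) ∧ 0 < lf a om (g - z) ∧ 0 < lf om (-1) (g - z) ∧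
      0 < lf (-om) 1 (g - z)) := fun h => absurd h.1 (not_lt.2 z2.le)
    rw [if_neg c1]
    have c2 : ¬ (lf 1 b (g - z) < 0 ∨ lf b om (g - z) < 0 ∨ lf om (-1) (g - z) < 0 ∨
      lf (-om) 1 (g - z) < 0) := by
      rintro (h | h | h | h) <;> linarith
    rw [if_neg c2, if_pos (Or.inr ⟨z7, z8⟩)]
    rfl

end Pool.Agent.Helper31.UNC
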